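import Pool.Agent.Q97.FreeP.Final

set_option autoImplicit false

/-!
# `p`-Banach spaces isomorphic to their own Lipschitz free `p`-space

The definitions `IsPNorm`, `IsPBanach` and `IsFreePSpace` are in `Pool.Agent.Q97.FreeP.Defs`.
-/

namespace Pool.Agent.Results.MP_fdacb0_an.SelfFreeSpace

open Q97.FreeP

/-- For every `p` with `0 < p < 1` there is an infinite-dimensional `p`-Banach space `X` which is
its own Lipschitz free `p`-space: for a suitable map `δ : X → X` the space `X` together with `δ`
has the defining universal property of the Lipschitz free `p`-space of `X`.  Consequently every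
Lipschitz free `p`-space of `X` is linearly isometric to `X`. -/
theorem result (p : ℝ) (hp : 0 < p) (hp1 : p < 1) :
    ∃ (X : Type) (_ : AddCommGroup X) (_ : Module ℝ X) (q : X → ℝ),
      IsPBanach p q ∧ ¬ FiniteDimensional ℝ X ∧ (∃ δ : X → X, IsFreePSpace p q q δ) ∧
      ∀ (F : Type) [AddCommGroup F] [Module ℝ F] (Q : F → ℝ) (δ : X → F),
        IsFreePSpace p q Q δ → ∃ T : F ≃ₗ[ℝ] X, ∀ v, q (T v) = Q v := by
  have _ : Fact (0 < p) := ⟨hp⟩
  refine ⟨X p, inferInstance, inferInstance, qX, isPBanach_X, not_finiteDimensional hp1.le,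
    ⟨dX, isFree_X⟩, ?_⟩
  intro F _ _ Q δ hF
  exact free_unique hF isFree_X

end Pool.Agent.Results.MP_fdacb0_an.SelfFreeSpace
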